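import Pool.Agent.Helper89.HY.St2

/-!
# Project HY2, module CRT
-/

set_option autoImplicit false

noncomputable section

namespace Pool.Agent.Helper83.HY

open Finset Matrix
open Pool.Agent.Helper56.SW (Tm Sm Nq N τ)
open Pool.Agent.Helper89.HY

private lemma map_word {a b : ℕ} (f : ZMod a →+* ZMod b) (x : Fin 6 → ZMod a) :
    f.mapMatrix (List.ofFn fun i : Fin 6 => Tm (x i) * Sm a).prod =
      (List.ofFn fun i : Fin 6 => Tm (f (x i)) * Sm b).prod := by
  rw [map_list_prod, List.map_ofFn]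
  congr 2
  funext i
  show f.mapMatrix (Tm (x i) * Sm a) = Tm (f (x i)) * Sm b
  rw [map_mul]
  congr 1
  · unfold Tm
    ext i j
    fin_cases i <;> fin_cases j <;> simp
  · unfold Sm
    ext i j
    fin_cases i <;> fin_cases j <;> simp

private lemma map_scal {a b : ℕ} (f : ZMod a →+* ZMod b) (γ : ZMod a) :
    f.mapMatrix (γ • (1 : Matrix (Fin 2) (Fin 2) (ZMod a))) =
      f γ • (1 : Matrix (Fin 2) (Fin 2) (ZMod b)) := by
  ext i j
  fin_cases i <;> fin_cases j <;> simp

section crt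

variable {n k : ℕ} [NeZero n] [NeZero k] [NeZero (n * k)]

private lemma mem_split (f : ZMod (n * k) →+* ZMod n) (g : ZMod (n * k) →+* ZMod k)
    (hfg : ∀ z w : ZMod (n * k), f z = f w → g z = g w → z = w) (γ : ZMod (n * k))
    (x : Fin 6 → ZMod (n * k)) :
    x ∈ Vn (n * k) γ ↔ (fun i => f (x i)) ∈ Vn n (f γ) ∧ (fun i => g (x i)) ∈ Vn k (g γ) := by
  unfold Vn
  simp only [Finset.mem_filter, Finset.mem_univ, true_and]
  rw [← map_word f, ← map_word g, ← map_scal f, ← map_scal g]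
  constructor
  · intro h
    rw [h]
    exact ⟨rfl, rfl⟩
  · rintro ⟨h1, h2⟩
    ext i j
    apply hfg
    · exact congrFun (congrFun h1 i) j
    · exact congrFun (congrFun h2 i) j

/-- CRT. -/
theorem hCRT : StCRT := by
  intro n k _ _ _ hco hn hk ψ hψ γ hγ m
  classical
  obtain ⟨φ, -⟩ : ∃ φ : ZMod (n * k) ≃+* ZMod n × ZMod k, φ = ZMod.chineseRemainder hco := ⟨_, rfl⟩
  obtain ⟨f, hf⟩ : ∃ f : ZMod (n * k) →+* ZMod n, ∀ z, f z = (φ z).1 :=
    ⟨(RingHom.fst _ _).comp φ.toRingHom, fun z => rfl⟩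
  obtain ⟨g, hg⟩ : ∃ g : ZMod (n * k) →+* ZMod k, ∀ z, g z = (φ z).2 :=
    ⟨(RingHom.snd _ _).comp φ.toRingHom, fun z => rfl⟩
  have hfg : ∀ z w : ZMod (n * k), f z = f w → g z = g w → z = w := by
    intro z w h1 h2
    apply φ.injective
    rw [hf, hf] at h1
    rw [hg, hg] at h2
    exact Prod.ext h1 h2
  have fs : ∀ x y, f (φ.symm (x, y)) = x := by intro x y; rw [hf, φ.apply_symm_apply]
  have gs : ∀ x y, g (φ.symm (x, y)) = y := by intro x y; rw [hg, φ.apply_symm_apply]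
  obtain ⟨ψ₁, h₁⟩ : ∃ ψ₁ : AddChar (ZMod n) ℂ, ∀ x, ψ₁ x = ψ (φ.symm (x, 0)) :=
    ⟨ψ.compAddMonoidHom (φ.symm.toAddEquiv.toAddMonoidHom.comp (AddMonoidHom.inl _ _)),
      fun x => rfl⟩
  obtain ⟨ψ₂, h₂⟩ : ∃ ψ₂ : AddChar (ZMod k) ℂ, ∀ x, ψ₂ x = ψ (φ.symm (0, x)) :=
    ⟨ψ.compAddMonoidHom (φ.symm.toAddEquiv.toAddMonoidHom.comp (AddMonoidHom.inr _ _)),
      fun x => rfl⟩
  have hsplit : ∀ z, ψ z = ψ₁ (f z) * ψ₂ (g z) := by
    intro z
    rw [h₁, h₂, ← AddChar.map_add_eq_mul]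
    congr 1
    apply hfg
    · rw [map_add, fs, fs, add_zero]
    · rw [map_add, gs, gs, zero_add]
  have p₁ : ψ₁.IsPrimitive := by
    intro a ha h
    refine hψ (a := φ.symm (a, 0)) ?_ ?_
    · intro h0
      apply ha
      rw [← fs a 0, h0, map_zero]
    · ext z
      rw [AddChar.mulShift_apply, hsplit, map_mul f, map_mul g, fs, gs, zero_mul, AddChar.map_zero_eq_one,
        mul_one]
      have := congrArg (fun χ : AddChar (ZMod n) ℂ => χ (f z)) h
      simpa [AddChar.mulShift_apply] using this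
  have p₂ : ψ₂.IsPrimitive := by
    intro a ha h
    refine hψ (a := φ.symm (0, a)) ?_ ?_
    · intro h0
      apply ha
      rw [← gs 0 a, h0, map_zero]
    · ext z
      rw [AddChar.mulShift_apply, hsplit, map_mul f, map_mul g, fs, gs, zero_mul, AddChar.map_zero_eq_one,
        one_mul]
      have := congrArg (fun χ : AddChar (ZMod k) ℂ => χ (g z)) h
      simpa [AddChar.mulShift_apply] using this
  have e₁ := hn ψ₁ p₁ (f γ) (by rw [← map_pow, hγ, map_one]) (fun i => f (m i))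
  have e₂ := hk ψ₂ p₂ (g γ) (by rw [← map_pow, hγ, map_one]) (fun i => g (m i))
  -- the sum
  have hsum : ∑ x ∈ Vn (n * k) γ, ψ (∑ i, m i * x i) =
      (∑ x ∈ Vn n (f γ), ψ₁ (∑ i, f (m i) * x i)) * ∑ y ∈ Vn k (g γ), ψ₂ (∑ i, g (m i) * y i) := by
    rw [Finset.sum_mul_sum, ← Finset.sum_product']
    refine Finset.sum_nbij' (fun x => (fun i => f (x i), fun i => g (x i)))
      (fun q => fun i => φ.symm (q.1 i, q.2 i)) ?_ ?_ ?_ ?_ ?_
    · intro x hx
      rw [Finset.mem_product]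
      exact (mem_split f g hfg γ x).1 hx
    · intro q hq
      rw [Finset.mem_product] at hq
      rw [mem_split f g hfg γ]
      simp only [fs, gs]
      exact hq
    · intro x hx
      funext i
      apply hfg
      · rw [fs]
      · rw [gs]
    · intro q hq
      simp only [fs, gs]
    · intro x hx
      rw [hsplit, map_sum f, map_sum g]
      simp only [map_mul f, map_mul g]
  -- the annihilators
  have hAn : An (n * k) m = An n (fun i => f (m i)) * An k (fun i => g (m i)) := by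
    unfold An
    rw [← Finset.card_product]
    refine Finset.card_nbij' (fun b => (f b, g b)) (fun q => φ.symm (q.1, q.2)) ?_ ?_ ?_ ?_
    · intro b hb
      have hb' := (Finset.mem_filter.1 (Finset.mem_coe.1 hb)).2
      refine Finset.mem_coe.2 (Finset.mem_product.2 ⟨Finset.mem_filter.2 ⟨Finset.mem_univ _, ?_⟩,
        Finset.mem_filter.2 ⟨Finset.mem_univ _, ?_⟩⟩)
      · intro i
        show f b * f (m i) = 0
        rw [← map_mul, hb' i, map_zero]
      · intro i
        show g b * g (m i) = 0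
        rw [← map_mul, hb' i, map_zero]
    · intro q hq
      obtain ⟨hq1, hq2⟩ := Finset.mem_product.1 (Finset.mem_coe.1 hq)
      have k1 := (Finset.mem_filter.1 hq1).2
      have k2 := (Finset.mem_filter.1 hq2).2
      refine Finset.mem_coe.2 (Finset.mem_filter.2 ⟨Finset.mem_univ _, ?_⟩)
      intro i
      apply hfg
      · rw [map_mul, fs, map_zero]
        exact k1 i
      · rw [map_mul, gs, map_zero]
        exact k2 i
    · intro b hb
      apply hfg
      · rw [fs]
      · rw [gs]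
    · intro q hq
      show (f (φ.symm (q.1, q.2)), g (φ.symm (q.1, q.2))) = q
      rw [fs, gs]
  have hτ : τ (n * k) = τ n * τ k := by
    unfold τ
    rw [hco.card_divisors_mul, Nat.cast_mul]
  rw [hsum, norm_mul, hAn, hτ]
  calc ‖∑ x ∈ Vn n (f γ), ψ₁ (∑ i, f (m i) * x i)‖ * ‖∑ y ∈ Vn k (g γ), ψ₂ (∑ i, g (m i) * y i)‖
      ≤ (τ n ^ 5 * (n : ℝ) ^ 2 * An n (fun i => f (m i))) *
          (τ k ^ 5 * (k : ℝ) ^ 2 * An k (fun i => g (m i))) :=
        mul_le_mul e₁ e₂ (norm_nonneg _) ((norm_nonneg _).trans e₁)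
    _ = _ := by
        push_cast
        ring

end crt

end Pool.Agent.Helper83.HY
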