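import Pool.Agent.Helper89.HY.St

/-!
# Project HY, module PAR
-/

set_option autoImplicit false

noncomputable section

namespace Pool.Agent.Helper83.HY

open Finset Matrix
open Pool.Agent.Helper56.SW (Tm Sm Nq N)
open Pool.Agent.Helper89.HY

variable {p : ℕ}

/-- The product of three letters. -/
private def P3 (x y z : ZMod p) : Matrix (Fin 2) (Fin 2) (ZMod p) :=
  !![x * y * z - x - z, 1 - x * y; y * z - 1, -y]

/-- The inverse of the product of three letters. -/
private def Q3 (x y z : ZMod p) : Matrix (Fin 2) (Fin 2) (ZMod p) :=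
  !![-y, x * y - 1; 1 - y * z, x * y * z - x - z]

private lemma three (x y z : ZMod p) :
    (Tm x * Sm p) * ((Tm y * Sm p) * (Tm z * Sm p)) = P3 x y z := by
  unfold Tm Sm P3
  ext i j
  fin_cases i <;> fin_cases j <;> simp [Matrix.mul_apply, Fin.sum_univ_two] <;> ring

private lemma PQ (x y z : ZMod p) : P3 x y z * Q3 x y z = 1 := by
  unfold P3 Q3
  ext i j
  fin_cases i <;> fin_cases j <;> simp [Matrix.mul_apply, Fin.sum_univ_two] <;> ring

private lemma QP (x y z : ZMod p) : Q3 x y z * P3 x y z = 1 := by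
  unfold P3 Q3
  ext i j
  fin_cases i <;> fin_cases j <;> simp [Matrix.mul_apply, Fin.sum_univ_two] <;> ring

private lemma prod6 (x : Fin 6 → ZMod p) :
    (List.ofFn fun i : Fin 6 => Tm (x i) * Sm p).prod =
      P3 (x 0) (x 1) (x 2) * P3 (x 3) (x 4) (x 5) := by
  rw [← three, ← three]
  simp only [List.ofFn_succ, List.ofFn_zero, List.prod_cons, List.prod_nil, mul_one]
  simp only [← mul_assoc]
  rfl

private lemma mem_V [Fact p.Prime] {γ : ZMod p} (hγ : γ ^ 2 = 1) (x : Fin 6 → ZMod p) :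
    x ∈ Vg p γ ↔ ((x 1 * x 2 - 1) * x 0 = x 2 - γ * x 4 ∧
      1 - x 0 * x 1 = γ * (x 3 * x 4 - 1) ∧ x 4 * x 5 - 1 = -γ * (x 1 * x 2 - 1) ∧
      (x 1 * x 2 - 1) * x 3 = x 1 - γ * x 5) := by
  have h1 : x ∈ Vg p γ ↔ P3 (x 0) (x 1) (x 2) = γ • Q3 (x 3) (x 4) (x 5) := by
    unfold Vg
    rw [Finset.mem_filter, prod6]
    constructor
    · rintro ⟨-, h⟩
      calc P3 (x 0) (x 1) (x 2) = P3 (x 0) (x 1) (x 2) *
            (P3 (x 3) (x 4) (x 5) * Q3 (x 3) (x 4) (x 5)) := by rw [PQ, mul_one]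
        _ = γ • Q3 (x 3) (x 4) (x 5) := by rw [← mul_assoc, h, smul_mul_assoc, one_mul]
    · intro h
      refine ⟨Finset.mem_univ _, ?_⟩
      rw [h, smul_mul_assoc, QP]
  rw [h1]
  constructor
  · intro h
    have e00 := congrFun (congrFun h 0) 0
    have e01 := congrFun (congrFun h 0) 1
    have e10 := congrFun (congrFun h 1) 0
    have e11 := congrFun (congrFun h 1) 1
    simp [P3, Q3] at e00 e01 e10 e11
    refine ⟨?_, ?_, ?_, ?_⟩
    · linear_combination e00
    · linear_combination e01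
    · linear_combination γ * e10 + (1 - x 4 * x 5) * hγ
    · linear_combination e11 + x 3 * e10
  · rintro ⟨h1, h2, h3, h4⟩
    have e10 : x 1 * x 2 - 1 = γ * (1 - x 4 * x 5) := by
      linear_combination γ * h3 - (x 1 * x 2 - 1) * hγ
    unfold P3 Q3
    ext i j
    fin_cases i <;> fin_cases j <;> simp
    · linear_combination h1
    · linear_combination h2
    · linear_combination e10
    · linear_combination h4 - x 3 * e10

private lemma KS_mul [Fact p.Prime] (A B n A' B' n' : ZMod p) :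
    KS p A B n * KS p A' B' n' = ∑ q : (ZMod p × ZMod p) × (ZMod p × ZMod p),
      if q.1.1 * q.1.2 = n ∧ q.2.1 * q.2.2 = n' then
        ad p (A * q.1.1 + B * q.1.2) * ad p (A' * q.2.1 + B' * q.2.2) else 0 := by
  have h : ∀ A B n : ZMod p, KS p A B n = ∑ q : ZMod p × ZMod p,
      if q.1 * q.2 = n then ad p (A * q.1 + B * q.2) else 0 := by
    intro A B n
    unfold KS
    rw [Fintype.sum_prod_type]
  rw [h, h, Finset.sum_mul_sum]
  symm
  rw [Fintype.sum_prod_type]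
  refine Finset.sum_congr rfl fun a _ => Finset.sum_congr rfl fun b _ => ?_
  by_cases h1 : a.1 * a.2 = n <;> by_cases h2 : b.1 * b.2 = n' <;> simp [h1, h2]

private lemma ad_norm [Fact p.Prime] (x : ZMod p) : ‖ad p x‖ = 1 := AddChar.norm_apply _ _

private lemma fib [Fact p.Prime] {γ : ZMod p} (hγ : γ ^ 2 = 1) (m : Fin 6 → ZMod p) {c : ZMod p}
    (hc : c ≠ 0) :
    ∑ x ∈ (Vg p γ).filter (fun x => x 1 * x 2 - 1 = c), ad p (∑ i, m i * x i) =
      KS p (m 1 + m 3 / c) (m 2 + m 0 / c) (1 + c) *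
        KS p (m 4 + m 0 / (-γ * c)) (m 5 + m 3 / (-γ * c)) (1 + (-γ * c)) := by
  classical
  have hγ0 : γ ≠ 0 := by
    rintro rfl
    rw [zero_pow two_ne_zero] at hγ
    exact zero_ne_one hγ
  have hinv : ∀ t : ZMod p, t / (-γ * c) = -γ * t / c := by
    intro t
    field_simp
    linear_combination (t : ZMod p) * hγ
  rw [KS_mul, ← Finset.sum_filter]
  refine Finset.sum_nbij' (fun x => ((x 1, x 2), (x 4, x 5)))
    (fun q => ![(q.1.2 - γ * q.2.1) / c, q.1.1, q.1.2, (q.1.1 - γ * q.2.2) / c, q.2.1, q.2.2])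
    ?_ ?_ ?_ ?_ ?_
  · intro x hx
    obtain ⟨hx1, hx2⟩ := Finset.mem_filter.1 hx
    obtain ⟨h1, h2, h3, h4⟩ := (mem_V hγ x).1 hx1
    rw [Finset.mem_filter]
    refine ⟨Finset.mem_univ _, ?_, ?_⟩
    · show x 1 * x 2 = 1 + c
      linear_combination hx2
    · show x 4 * x 5 = 1 + -γ * c
      rw [hx2] at h3
      linear_combination h3
  · intro q hq
    obtain ⟨-, hq1, hq2⟩ := Finset.mem_filter.1 hq
    rw [Finset.mem_filter, mem_V hγ]
    simp only [Matrix.cons_val_zero, Matrix.cons_val_one, Matrix.cons_val]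
    have hcc : q.1.1 * q.1.2 - 1 = c := by linear_combination hq1
    rw [hcc]
    refine ⟨⟨?_, ?_, ?_, ?_⟩, rfl⟩
    · field_simp
    · field_simp
      linear_combination (-1) * hq1 + hq2 + (q.2.1 * q.2.2) * hγ
    · linear_combination hq2
    · field_simp
  · intro x hx
    obtain ⟨hx1, hx2⟩ := Finset.mem_filter.1 hx
    obtain ⟨h1, h2, h3, h4⟩ := (mem_V hγ x).1 hx1
    rw [hx2] at h1 h4
    have e0 : x 0 = (x 2 - γ * x 4) / c := by rw [eq_div_iff hc, mul_comm]; exact h1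
    have e3 : x 3 = (x 1 - γ * x 5) / c := by rw [eq_div_iff hc, mul_comm]; exact h4
    funext i
    fin_cases i
    · exact e0.symm
    · rfl
    · rfl
    · exact e3.symm
    · rfl
    · rfl
  · intro q hq
    rfl
  · intro x hx
    obtain ⟨hx1, hx2⟩ := Finset.mem_filter.1 hx
    obtain ⟨h1, h2, h3, h4⟩ := (mem_V hγ x).1 hx1
    rw [hx2] at h1 h4
    have e0 : x 0 = (x 2 - γ * x 4) / c := by rw [eq_div_iff hc, mul_comm]; exact h1
    have e3 : x 3 = (x 1 - γ * x 5) / c := by rw [eq_div_iff hc, mul_comm]; exact h4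
    rw [Fin.sum_univ_six, hinv, hinv, e0, e3]
    show ad p _ = ad p ((m 1 + m 3 / c) * x 1 + (m 2 + m 0 / c) * x 2) *
      ad p ((m 4 + -γ * m 0 / c) * x 4 + (m 5 + -γ * m 3 / c) * x 5)
    unfold ad
    rw [← AddChar.map_add_eq_mul]
    congr 1
    field_simp
    ring

private lemma small [Fact p.Prime] {γ : ZMod p} (hγ : γ ^ 2 = 1) :
    ((Vg p γ).filter (fun x => x 1 * x 2 - 1 = 0)).card ≤ p ^ 2 := by
  classical
  have hγ0 : γ ≠ 0 := by
    rintro rfl
    rw [zero_pow two_ne_zero] at hγ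
    exact zero_ne_one hγ
  have hcard : (Finset.univ : Finset (ZMod p × ZMod p)).card = p ^ 2 := by
    rw [Finset.card_univ, Fintype.card_prod, ZMod.card, sq]
  rw [← hcard]
  refine Finset.card_le_card_of_injOn (fun x => (x 0, x 2)) (fun x _ => Finset.mem_coe.2 (Finset.mem_univ _)) ?_
  intro x hx y hy he
  obtain ⟨hx1, hx2⟩ := Finset.mem_filter.1 (Finset.mem_coe.1 hx)
  obtain ⟨hy1, hy2⟩ := Finset.mem_filter.1 (Finset.mem_coe.1 hy)
  obtain ⟨h1, h2, h3, h4⟩ := (mem_V hγ x).1 hx1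
  obtain ⟨g1, g2, g3, g4⟩ := (mem_V hγ y).1 hy1
  obtain ⟨e0, e2⟩ := Prod.mk.injEq _ _ _ _ ▸ he
  rw [hx2] at h1 h3 h4
  rw [hy2] at g1 g3 g4
  have n2 : x 2 ≠ 0 := by
    intro h0
    rw [h0, mul_zero, zero_sub, neg_eq_zero] at hx2
    exact one_ne_zero hx2
  have e1 : x 1 = y 1 := by
    apply mul_right_cancel₀ n2
    have : y 1 * x 2 = y 1 * y 2 := by rw [e2]
    linear_combination hx2 - hy2 - this
  have e4 : x 4 = y 4 := by
    apply mul_left_cancel₀ hγ0
    linear_combination h1 - g1 + e2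
  have e5 : x 5 = y 5 := by
    apply mul_left_cancel₀ hγ0
    linear_combination h4 - g4 + e1
  have n4 : γ * x 4 = x 2 := by linear_combination h1
  have e3 : x 3 = y 3 := by
    apply mul_right_cancel₀ n2
    rw [← n4]
    have a1 : x 3 * (γ * x 4) = 1 - x 0 * x 1 + γ := by linear_combination (-1) * h2
    have a2 : y 3 * (γ * x 4) = 1 - y 0 * y 1 + γ := by rw [e4]; linear_combination (-1) * g2
    rw [a1, a2, e0, e1]
  funext i
  fin_cases i
  · exact e0
  · exact e1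
  · exact e2
  · exact e3
  · exact e4
  · exact e5

/-- PAR. -/
theorem hPAR : StPAR := by
  intro p _ γ hγ m
  classical
  have hsplit : ∑ x ∈ Vg p γ, ad p (∑ i, m i * x i) =
      ∑ c : ZMod p, ∑ x ∈ (Vg p γ).filter (fun x => x 1 * x 2 - 1 = c), ad p (∑ i, m i * x i) :=
    (Finset.sum_fiberwise (Vg p γ) (fun x => x 1 * x 2 - 1) _).symm
  rw [hsplit, ← Finset.add_sum_erase Finset.univ _ (Finset.mem_univ (0 : ZMod p))]
  have hc : ∑ c ∈ univ.erase (0 : ZMod p),
      ∑ x ∈ (Vg p γ).filter (fun x => x 1 * x 2 - 1 = c), ad p (∑ i, m i * x i) =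
      ∑ c ∈ univ.erase (0 : ZMod p), KS p (m 1 + m 3 / c) (m 2 + m 0 / c) (1 + c) *
        KS p (m 4 + m 0 / (-γ * c)) (m 5 + m 3 / (-γ * c)) (1 + (-γ * c)) :=
    Finset.sum_congr rfl fun c hc => fib hγ m (Finset.ne_of_mem_erase hc)
  rw [hc, add_sub_cancel_right]
  refine (norm_sum_le _ _).trans ?_
  calc ∑ x ∈ (Vg p γ).filter (fun x => x 1 * x 2 - 1 = 0), ‖ad p (∑ i, m i * x i)‖
      = (((Vg p γ).filter (fun x => x 1 * x 2 - 1 = 0)).card : ℝ) := by
        rw [Finset.sum_congr rfl fun x _ => ad_norm _, Finset.sum_const, nsmul_eq_mul, mul_one]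
    _ ≤ (p : ℝ) ^ 2 := by exact_mod_cast small hγ

end Pool.Agent.Helper83.HY
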